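import Pool.Agent.Lib.MP_5de024_nt.S.Defs

/-!
# The Kummer extension (part KUM)
-/

set_option autoImplicit false
set_option linter.unusedSectionVars false

namespace Pool.Agent.AB3

open Pool.Agent.AB

/-- normalised roots `w γ j` of the conjugates of the `u j` in `L` -/
structure KumL (p : ℕ) [Fact p.Prime] (M L : Type) [Field M] [Algebra (Fx p) M] [Field L]
    [Algebra (Fx p) L] (n r : ℕ) (u v : Fin r → M) where
  ι : M →ₐ[Fx p] L
  ρ : Gl p L →* Gl p M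
  w : Gl p M → Fin r → L
  hρ : ∀ (τ : Gl p L) (s : M), τ (ι s) = ι (ρ τ s)
  surj : Function.Surjective ρ
  fix : ∀ z : L, (∀ τ : Gl p L, ρ τ = 1 → τ z = z) → ∃ s : M, z = ι s
  root : ∀ γ j, w γ j ^ n = ι (γ (u j))
  norm : ∀ γ j, (∏ᶠ h : Gc p M, w ((h : Gl p M) * γ) j) = ι (γ (v j))
  gen : ∀ τ : Gl p L, ρ τ = 1 → (∀ γ j, τ (w γ j) = w γ j) → τ = 1

end Pool.Agent.AB3
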