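import Pool.Agent.Lib.MP_5de024_nt.C.Km2
import Pool.Agent.Lib.MP_5de024_nt.S.KumX.Def

/-!
# Normalised roots
-/

set_option autoImplicit false
set_option linter.unusedSectionVars false

namespace Pool.Agent.AB3

open Pool.Agent.AB

/-- the geometric part is normal -/
theorem kumKa_normal (p : ℕ) [Fact p.Prime] (K : Type) [Field K] [Algebra (Fx p) K] :
    (Gc p K).Normal := by
  constructor
  intro σ hσ τ c hc
  have h1 : IsCst p (τ⁻¹ c) := IsCst.map (τ⁻¹ : Gl p K).toAlgHom.toRingHom hc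
  have h2 := hσ (τ⁻¹ c) h1
  rw [AlgEquiv.mul_apply, AlgEquiv.mul_apply, h2, AlgEquiv.aut_inv,
    AlgEquiv.apply_symm_apply]

/-- correcting one factor in every coset -/
theorem kumKa_norm {L G R : Type} [Field L] [Group G] [Finite G] (H : Subgroup G)
    (y q : G → R → L) (Z : L → Prop) (hZ1 : Z 1)
    (hP : ∀ γ j, ∃ z : L, Z z ∧ z * (∏ᶠ h : H, y ((h : G) * γ) j) = q γ j)
    (hq : ∀ γ j, ∀ h ∈ H, q (h * γ) j = q γ j) :
    ∃ f : G → R → L, (∀ γ j, Z (f γ j)) ∧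
      ∀ γ j, (∏ᶠ h : H, (f ((h : G) * γ) j * y ((h : G) * γ) j)) = q γ j := by
  classical
  choose e he1 he2 using hP
  obtain ⟨rep, hr1, hr2⟩ : ∃ rep : G → G, (∀ γ, ∃ h ∈ H, rep γ = h * γ) ∧
      ∀ γ, ∀ h ∈ H, rep (h * γ) = rep γ := by
    refine ⟨fun γ => (Quotient.mk (QuotientGroup.rightRel H) γ).out, fun γ => ?_,
      fun γ h hh => ?_⟩
    · have h1 : QuotientGroup.rightRel H
          (Quotient.mk (QuotientGroup.rightRel H) γ).out γ := Quotient.mk_out γ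
      rw [QuotientGroup.rightRel_apply] at h1
      refine ⟨_, H.inv_mem h1, ?_⟩
      group
    · have h1 : Quotient.mk (QuotientGroup.rightRel H) (h * γ) =
          Quotient.mk (QuotientGroup.rightRel H) γ := by
        refine Quotient.sound ?_
        change QuotientGroup.rightRel H (h * γ) γ
        rw [QuotientGroup.rightRel_apply]
        have h2 : γ * (h * γ)⁻¹ = h⁻¹ := by group
        rw [h2]
        exact H.inv_mem hh
      exact congrArg Quotient.out h1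
  refine ⟨fun γ j => if γ = rep γ then e γ j else 1, fun γ j => ?_, fun γ j => ?_⟩
  · change Z (if γ = rep γ then e γ j else 1)
    split_ifs
    · exact he1 γ j
    · exact hZ1
  · have hf : ∀ g : H → L, (Function.mulSupport g).Finite := fun g => Set.toFinite _
    rw [finprod_mul_distrib (hf _) (hf _)]
    obtain ⟨h0, hh0, hrep⟩ := hr1 γ
    have e1 : (∏ᶠ h : H, (if (h : G) * γ = rep ((h : G) * γ) then e ((h : G) * γ) j else 1)) =
        e (rep γ) j := by
      rw [finprod_eq_single _ (⟨h0, hh0⟩ : H)]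
      · rw [hr2 γ _ hh0]
        change (if h0 * γ = rep γ then e (h0 * γ) j else 1) = _
        rw [if_pos hrep.symm, ← hrep]
      · intro h hne
        rw [if_neg]
        intro h1
        apply hne
        apply Subtype.ext
        rw [hr2 γ _ h.2, hrep] at h1
        exact mul_right_cancel h1
    have e2 : (∏ᶠ h : H, y ((h : G) * γ) j) = ∏ᶠ h : H, y ((h : G) * rep γ) j := by
      symm
      refine finprod_eq_of_bijective (fun h : H => h * ⟨h0, hh0⟩)
        (Group.mulRight_bijective (⟨h0, hh0⟩ : H)) fun h => ?_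
      change y ((h : G) * rep γ) j = y ((h : G) * h0 * γ) j
      rw [hrep, mul_assoc]
    rw [e1, e2, he2, hrep]
    exact hq γ j h0 hh0

/-- the certificate of an element gives the local condition of `kum_fam` -/
theorem kumKa_loc (p : ℕ) [Fact p.Prime] (K : Type) [Field K] [Algebra (Fx p) K]
    [Algebra (Rx p) K] [IsScalarTower (Rx p) (Fx p) K] (n : ℕ) (u : K)
    (hu : ∃ a0 a1 c0 c1 d0 d1 : Oc p K, (a0 : K) ^ n = u * (c0 : K) ∧
      (a1 : K) ^ n = u * (c1 : K) ∧ d0 * c0 + d1 * c1 = 1)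
    (σ : Gl p K) (P : Ideal (Oc p K)) (hP : P.IsPrime) :
    ∃ (w : K) (a b : Oc p K), a ∉ P ∧ b ∉ P ∧ σ u * (b : K) = w ^ n * (a : K) := by
  obtain ⟨a0, a1, c0, c1, d0, d1, h0, h1, h2⟩ := hu
  have hone : (1 : Oc p K) ∉ P := fun h => hP.ne_top ((Ideal.eq_top_iff_one P).2 h)
  have key : ∀ a c : Oc p K, (a : K) ^ n = u * (c : K) → act p K σ c ∉ P →
      ∃ (w : K) (a b : Oc p K), a ∉ P ∧ b ∉ P ∧ σ u * (b : K) = w ^ n * (a : K) := by
    intro a c hac hc
    refine ⟨σ (a : K), 1, act p K σ c, hone, hc, ?_⟩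
    have h3 := congrArg (fun z : K => σ z) hac
    change σ ((a : K) ^ n) = σ (u * (c : K)) at h3
    rw [map_pow, map_mul] at h3
    rw [act_coe, ← h3]
    change _ = _ * (1 : K)
    rw [mul_one]
  by_cases h3 : act p K σ c0 ∈ P
  · by_cases h4 : act p K σ c1 ∈ P
    · exfalso
      apply hone
      have h5 := congrArg (act p K σ) h2
      rw [map_add, map_mul, map_mul, map_one] at h5
      rw [← h5]
      exact P.add_mem (P.mul_mem_left _ h3) (P.mul_mem_left _ h4)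
    · exact key a1 c1 h1 h4
  · exact key a0 c0 h0 h3

theorem kum_roots (p : ℕ) [Fact p.Prime] (M : Type) [Field M] [Algebra (Fx p) M]
    [Algebra (Rx p) M] [IsScalarTower (Rx p) (Fx p) M] (hM : NiK p M) (n r : ℕ)
    (hn : n.Coprime p) (ζ : M) (u v : Fin r → M) (hζ : IsPrimitiveRoot ζ n)
    (hu0 : ∀ j, u j ≠ 0)
    (hcert : ∀ j, ∃ a0 a1 c0 c1 d0 d1 : Oc p M, (a0 : M) ^ n = u j * (c0 : M) ∧
      (a1 : M) ^ n = u j * (c1 : M) ∧ d0 * c0 + d1 * c1 = 1)
    (hv : ∀ j, ∀ σ ∈ Gc p M, σ (v j) = v j)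
    (huv : ∀ j, (∏ᶠ σ : Gc p M, (σ : Gl p M) (u j)) = v j ^ n) :
    ∃ (L : Type) (_ : Field L) (_ : Algebra (Fx p) L) (_ : Algebra (Rx p) L)
      (_ : IsScalarTower (Rx p) (Fx p) L), NiK p L ∧ Nonempty (KumL p M L n r u v) := by
  obtain ⟨h1, h2, h3⟩ := hM
  have hfG : Finite (Gl p M) := inferInstance
  have hN : (Gc p M).Normal := kumKa_normal p M
  have hn0 : n ≠ 0 := by
    rintro rfl
    rw [Nat.coprime_zero_left] at hn
    exact (Fact.out : p.Prime).one_lt.ne' hn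
  have hnz : NeZero n := ⟨hn0⟩
  obtain ⟨L, i1, i2, i3, i4, ι, y, hfd, hgal, hNI, hy, hgen⟩ :=
    kum_fam p M h3 n hn ζ hζ (Gl p M × Fin r) (fun x => x.1 (u x.2))
      (fun x => (map_ne_zero x.1).2 (hu0 x.2))
      (fun σ x => ⟨(σ * x.1, x.2), 1, one_ne_zero, by
        rw [one_pow, mul_one]
        rfl⟩)
      (fun x P hP => kumKa_loc p M n (u x.2) (hcert x.2) x.1 P hP)
  obtain ⟨ρ, hρ1, hρ2, hρ3⟩ := km2_rho (Fx p) M L ι
  have hζL : IsPrimitiveRoot (ι ζ) n := hζ.map_of_injective ι.toRingHom.injective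
  have hζ0 : ι ζ ≠ 0 := hζL.ne_zero hn0
  have hy' : ∀ (γ : Gl p M) (j : Fin r), y (γ, j) ^ n = ι (γ (u j)) := fun γ j => hy (γ, j)
  have hy0 : ∀ (γ : Gl p M) (j : Fin r), y (γ, j) ≠ 0 := by
    intro γ j h0
    have h4 := hy' γ j
    rw [h0, zero_pow hn0] at h4
    exact hu0 j ((map_eq_zero γ).1 ((map_eq_zero ι).1 h4.symm))
  have hP0 : ∀ (γ : Gl p M) (j : Fin r), (∏ᶠ h : Gc p M, y ((h : Gl p M) * γ, j)) ≠ 0 :=
    fun γ j => finprod_induction (fun z : L => z ≠ 0) one_ne_zero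
      (fun _ _ => mul_ne_zero) fun h => hy0 _ j
  have hPn : ∀ (γ : Gl p M) (j : Fin r),
      ι (γ (v j)) ^ n = (∏ᶠ h : Gc p M, y ((h : Gl p M) * γ, j)) ^ n := by
    intro γ j
    have hf : ∀ g : Gc p M → L, (Function.mulSupport g).Finite := fun g => Set.toFinite _
    have hf' : ∀ g : Gc p M → M, (Function.mulSupport g).Finite := fun g => Set.toFinite _
    rw [finprod_pow (hf _), ← map_pow, ← map_pow, ← huv]
    have e1 : ι (γ (∏ᶠ σ : Gc p M, (σ : Gl p M) (u j))) =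
        ∏ᶠ σ : Gc p M, ι (γ ((σ : Gl p M) (u j))) := by
      have e2 := MonoidHom.map_finprod (((ι : M →* L)).comp (γ : M →* M))
        (f := fun σ : Gc p M => (σ : Gl p M) (u j)) (hf' _)
      exact e2
    rw [e1]
    refine finprod_eq_of_bijective (MulAut.conjNormal γ : Gc p M ≃* Gc p M)
      (MulEquiv.bijective _) fun h => ?_
    rw [hy', MulAut.conjNormal_apply, inv_mul_cancel_right]
    rfl
  obtain ⟨f, hf1, hf2⟩ := kumKa_norm (Gc p M) (fun γ j => y (γ, j)) (fun γ j => ι (γ (v j)))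
    (fun z => ∃ c : ℕ, z = ι ζ ^ c) ⟨0, (pow_zero _).symm⟩
    (fun γ j => by
      obtain ⟨c, hc⟩ := kum2_quot hζL (hP0 γ j) (hPn γ j)
      exact ⟨_, ⟨_, rfl⟩, hc.symm⟩)
    (fun γ j h hh => by
      have h5 : γ⁻¹ * h * γ ∈ Gc p M := by
        have h6 := hN.conj_mem h hh γ⁻¹
        rwa [inv_inv] at h6
      have h7 : h * γ = γ * (γ⁻¹ * h * γ) := by group
      change ι ((h * γ) (v j)) = ι (γ (v j))
      rw [h7]
      change ι (γ ((γ⁻¹ * h * γ) (v j))) = ι (γ (v j))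
      rw [hv j _ h5])
  have hf0 : ∀ γ j, f γ j ≠ 0 := by
    intro γ j
    obtain ⟨c, hc⟩ := hf1 γ j
    rw [hc]
    exact pow_ne_zero _ hζ0
  refine ⟨L, i1, i2, i3, i4, ⟨hfd, hgal, hNI⟩, ⟨{
    ι := ι
    ρ := ρ
    w := fun γ j => f γ j * y (γ, j)
    hρ := hρ1
    surj := hρ2
    fix := hρ3
    root := ?_
    norm := hf2
    gen := ?_ }⟩⟩
  · intro γ j
    obtain ⟨c, hc⟩ := hf1 γ j
    rw [mul_pow, hy', hc, ← pow_mul, mul_comm c n, pow_mul, hζL.pow_eq_one, one_pow, one_mul]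
  · intro τ hτ hw
    have hτι : ∀ s : M, τ (ι s) = ι s := by
      intro s
      rw [hρ1, hτ]
      rfl
    refine hgen τ hτι fun x => ?_
    obtain ⟨γ, j⟩ := x
    have h4 := hw γ j
    obtain ⟨c, hc⟩ := hf1 γ j
    have h5 : τ (f γ j) = f γ j := by
      rw [hc, ← map_pow, hτι]
    rw [map_mul, h5] at h4
    exact mul_left_cancel₀ (hf0 γ j) h4

end Pool.Agent.AB3
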