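import Pool.Agent.Lib.MP_5de024_nt.Kum2
import Pool.Agent.Lib.MP_5de024_nt.S.KumX.Def

/-!
# The cocycle of the Kummer extension
-/

set_option autoImplicit false
set_option linter.unusedSectionVars false

namespace Pool.Agent.AB3

open Pool.Agent.AB

/-- roots of unity of order prime to `p` are constants -/
private theorem kb_cst (p : ℕ) [Fact p.Prime] {K : Type} [Field K] {m : ℕ} (hm : m.Coprime p)
    {ζ : K} (hζ : ζ ^ m = 1) : IsCst p ζ := by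
  have hm0 : 0 < m := by
    rcases Nat.eq_zero_or_pos m with h | h
    · rw [h, Nat.coprime_zero_left] at hm
      exact absurd hm (Fact.out : p.Prime).one_lt.ne'
    · exact h
  refine ⟨m.totient, Nat.totient_pos.2 hm0, ?_⟩
  have h1 : p ^ m.totient ≡ 1 [MOD m] := Nat.ModEq.pow_totient hm.symm
  have h2 : ζ ^ p ^ m.totient = ζ ^ 1 := by
    rw [← Nat.mod_add_div (p ^ m.totient) m, pow_add, pow_mul, hζ, one_pow, mul_one]
    conv_rhs => rw [← Nat.mod_add_div 1 m, pow_add, pow_mul, hζ, one_pow, mul_one]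
    rw [h1]
  rwa [pow_one] at h2

/-- the geometric part is normal -/
private theorem kb_norm (p : ℕ) [Fact p.Prime] (K : Type) [Field K] [Algebra (Fx p) K]
    {σ : Gl p K} (hσ : σ ∈ Gc p K) (τ : Gl p K) : τ * σ * τ⁻¹ ∈ Gc p K := by
  intro c hc
  have h1 : IsCst p (τ⁻¹ c) := IsCst.map (τ⁻¹ : Gl p K).toAlgHom.toRingHom hc
  have h2 := hσ (τ⁻¹ c) h1
  rw [AlgEquiv.mul_apply, AlgEquiv.mul_apply, h2, AlgEquiv.aut_inv,
    AlgEquiv.apply_symm_apply]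

theorem kum_nu (p : ℕ) [Fact p.Prime] (M : Type) [Field M] [Algebra (Fx p) M]
    [Algebra (Rx p) M] [IsScalarTower (Rx p) (Fx p) M] (hM : NiK p M) (L : Type) [Field L]
    [Algebra (Fx p) L] (n r : ℕ) [NeZero n] (hn : n.Coprime p) (ζ : M)
    (hζ : IsPrimitiveRoot ζ n) (u v : Fin r → M) (hu0 : ∀ j, u j ≠ 0)
    (Y : KumL p M L n r u v) :
    ∃ ν : Gl p L → Gl p M → Fin r → ZMod n,
      (∀ (τ : Gl p L) (γ : Gl p M) (j : Fin r),
        τ (Y.w γ j) = Y.ι ((Y.ρ τ * γ) ζ) ^ (ν τ (Y.ρ τ * γ) j).val * Y.w (Y.ρ τ * γ) j) ∧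
      (∀ (τ τ' : Gl p L) (γ : Gl p M) (j : Fin r),
        ν (τ * τ') γ j = ν τ γ j + ν τ' ((Y.ρ τ)⁻¹ * γ) j) ∧
      ∀ (τ : Gl p L) (γ : Gl p M) (j : Fin r),
        ∑ᶠ h : Gc p M, ν τ ((h : Gl p M) * γ) j = 0 := by
  have hfin : FiniteDimensional (Fx p) M := hM.1
  have hfinG : Finite (Gl p M) := inferInstance
  have hn0 : n ≠ 0 := NeZero.ne n
  have hw0 : ∀ γ j, Y.w γ j ≠ 0 := by
    intro γ j h0
    have h1 := Y.root γ j
    rw [h0, zero_pow hn0] at h1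
    have h2 : γ (u j) = 0 := by
      by_contra h3
      exact (map_ne_zero Y.ι).2 h3 h1.symm
    exact hu0 j (γ.injective (by rw [h2, map_zero]))
  have hprim : ∀ γ : Gl p M, IsPrimitiveRoot (Y.ι (γ ζ)) n := fun γ =>
    (hζ.map_of_injective γ.injective).map_of_injective Y.ι.toRingHom.injective
  have hex : ∀ (τ : Gl p L) (δ : Gl p M) (j : Fin r), ∃ c : ZMod n,
      τ (Y.w ((Y.ρ τ)⁻¹ * δ) j) = Y.ι (δ ζ) ^ c.val * Y.w δ j := by
    intro τ δ j
    refine kum2_quot (hprim δ) (hw0 δ j) ?_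
    rw [← map_pow, Y.root, Y.root, Y.hρ, ← AlgEquiv.mul_apply, mul_inv_cancel_left]
  choose ν hν using hex
  have h1 : ∀ (τ : Gl p L) (γ : Gl p M) (j : Fin r),
      τ (Y.w γ j) = Y.ι ((Y.ρ τ * γ) ζ) ^ (ν τ (Y.ρ τ * γ) j).val * Y.w (Y.ρ τ * γ) j := by
    intro τ γ j
    have h2 := hν τ (Y.ρ τ * γ) j
    rw [inv_mul_cancel_left] at h2
    exact h2
  have hcancel : ∀ (γ : Gl p M) (j : Fin r) (a b : ℕ),
      Y.ι (γ ζ) ^ a * Y.w γ j = Y.ι (γ ζ) ^ b * Y.w γ j → (a : ZMod n) = (b : ZMod n) :=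
    fun γ j a b hab => kum2_inj (hprim γ) (mul_right_cancel₀ (hw0 γ j) hab)
  refine ⟨ν, h1, ?_, ?_⟩
  · intro τ τ' δ j
    have e1 := hν (τ * τ') δ j
    have e2 : (Y.ρ (τ * τ'))⁻¹ * δ = (Y.ρ τ')⁻¹ * ((Y.ρ τ)⁻¹ * δ) := by
      rw [map_mul, mul_inv_rev, mul_assoc]
    rw [e2, AlgEquiv.mul_apply, hν τ' ((Y.ρ τ)⁻¹ * δ) j, map_mul, map_pow, Y.hρ,
      ← AlgEquiv.mul_apply, mul_inv_cancel_left, hν τ δ j, ← mul_assoc, ← pow_add] at e1
    have e3 := hcancel δ j _ _ e1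
    rw [Nat.cast_add, ZMod.natCast_zmod_val, ZMod.natCast_zmod_val, ZMod.natCast_zmod_val] at e3
    rw [← e3, add_comm]
  · intro τ γ j
    have hft : Fintype (Gc p M) := Fintype.ofFinite _
    -- the product of the conjugates of the roots
    have hprod : (∏ h : Gc p M, τ (Y.w ((Y.ρ τ)⁻¹ * ((h : Gl p M) * γ)) j)) =
        Y.ι (γ (v j)) := by
      have e0 := Y.norm ((Y.ρ τ)⁻¹ * γ) j
      rw [finprod_eq_prod_of_fintype] at e0
      rw [← map_prod]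
      have e1 : (∏ h : Gc p M, Y.w ((Y.ρ τ)⁻¹ * ((h : Gl p M) * γ)) j) =
          ∏ h : Gc p M, Y.w ((h : Gl p M) * ((Y.ρ τ)⁻¹ * γ)) j := by
        have hb : Function.Bijective (fun h : Gc p M =>
            (⟨(Y.ρ τ)⁻¹ * (h : Gl p M) * (Y.ρ τ)⁻¹⁻¹, kb_norm p M h.2 _⟩ : Gc p M)) := by
          refine Finite.injective_iff_bijective.1 ?_
          intro h h' hh
          have h2 := congrArg Subtype.val hh
          exact Subtype.ext (mul_left_cancel (mul_right_cancel h2))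
        refine Fintype.prod_bijective _ hb _ _ ?_
        intro h
        have h2 : (Y.ρ τ)⁻¹ * ((h : Gl p M) * γ) =
            (Y.ρ τ)⁻¹ * (h : Gl p M) * (Y.ρ τ)⁻¹⁻¹ * ((Y.ρ τ)⁻¹ * γ) := by group
        rw [h2]
      rw [e1, e0, Y.hρ, ← AlgEquiv.mul_apply, mul_inv_cancel_left]
    have hvne : Y.ι (γ (v j)) ≠ 0 := by
      rw [← Y.norm γ j, finprod_eq_prod_of_fintype]
      exact Finset.prod_ne_zero_iff.2 fun h _ => hw0 _ _
    have hcst : IsCst p (γ ζ) := by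
      refine kb_cst p hn ?_
      rw [← map_pow, hζ.pow_eq_one, map_one]
    have hprod2 : (∏ h : Gc p M, τ (Y.w ((Y.ρ τ)⁻¹ * ((h : Gl p M) * γ)) j)) =
        Y.ι (γ ζ) ^ (∑ h : Gc p M, (ν τ ((h : Gl p M) * γ) j).val) * Y.ι (γ (v j)) := by
      rw [← Y.norm γ j, finprod_eq_prod_of_fintype, ← Finset.prod_pow_eq_pow_sum,
        ← Finset.prod_mul_distrib]
      refine Finset.prod_congr rfl fun h _ => ?_
      rw [hν τ ((h : Gl p M) * γ) j, AlgEquiv.mul_apply, h.2 _ hcst]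
    rw [hprod] at hprod2
    have hone : Y.ι (γ ζ) ^ (∑ h : Gc p M, (ν τ ((h : Gl p M) * γ) j).val) =
        Y.ι (γ ζ) ^ 0 := by
      rw [pow_zero]
      exact (mul_eq_right₀ hvne).1 hprod2.symm
    have h2 := kum2_inj (hprim γ) hone
    rw [Nat.cast_sum, Nat.cast_zero] at h2
    rw [finsum_eq_sum_of_fintype, ← h2]
    refine Finset.sum_congr rfl fun h _ => ?_
    rw [ZMod.natCast_zmod_val]

end Pool.Agent.AB3
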