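import Pool.Agent.Lib.MP_5de024_nt.S.KumX.Def
import Pool.Agent.Lib.MP_5de024_nt.S.E.MsA
import Mathlib.RepresentationTheory.Homological.GroupCohomology.Hilbert90

/-!
# Kummer theory of a constant extension
-/

set_option autoImplicit false
set_option linter.unusedSectionVars false

namespace Pool.Agent.AB3

open Pool.Agent.AB

/-- a root of unity of order prime to `p` is a constant -/
theorem Kc_root (p : ℕ) [Fact p.Prime] (K : Type) [Field K] (m : ℕ) (hm : m.Coprime p) (ζ : K)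
    (hζ : ζ ^ m = 1) : IsCst p ζ := by
  have hm0 : 0 < m := by
    rcases Nat.eq_zero_or_pos m with h | h
    · rw [h, Nat.coprime_zero_left] at hm
      exact absurd hm (Fact.out : p.Prime).one_lt.ne'
    · exact h
  refine ⟨m.totient, Nat.totient_pos.2 hm0, ?_⟩
  have h1 : p ^ m.totient ≡ 1 [MOD m] := Nat.ModEq.pow_totient hm.symm
  have h2 : ζ ^ p ^ m.totient = ζ ^ 1 := by
    rw [← Nat.mod_add_div (p ^ m.totient) m, pow_add, pow_mul, hζ, one_pow, mul_one]
    conv_rhs => rw [← Nat.mod_add_div 1 m, pow_add, pow_mul, hζ, one_pow, mul_one]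
    rw [h1]
  rwa [pow_one] at h2

/-- Hilbert 90 on the constants: a multiplier which is trivial on the geometric part and has
invariant constant values is the multiplier of a constant -/
theorem Kc_h90 (p : ℕ) [Fact p.Prime] (L : Type) [Field L] [Algebra (Fx p) L]
    [Finite (Gl p L)] (H : Subgroup (Gl p L)) (z : L) (hz : z ≠ 0)
    (hc : ∀ t ∈ H, IsCst p (t z / z)) (hf : ∀ t ∈ H, ∀ s ∈ H, s (t z / z) = t z / z)
    (hfix : ∀ t ∈ H, t ∈ Gc p L → t z = z) :
    ∃ κ : L, IsCst p κ ∧ κ ≠ 0 ∧ ∀ t ∈ H, t κ = t z / z * κ := by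
  classical
  have hch : CharP L p := charP_of_injective_algebraMap (algebraMap (Fx p) L).injective p
  let _ := MsA_act p L H
  have hcoe : ∀ (t : H) (c : MsA_cst p L), ((t • c : MsA_cst p L) : L) = (t : Gl p L) (c : L) :=
    fun t c => rfl
  -- two elements of `H` with the same action on the constants have the same multiplier
  have hsame : ∀ t ∈ H, ∀ s ∈ H, (∀ c : L, IsCst p c → t c = s c) → t z = s z := by
    intro t ht s hs hts
    have h1 : s⁻¹ * t ∈ Gc p L := by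
      intro c hcc
      rw [AlgEquiv.mul_apply, hts c hcc]
      exact AlgEquiv.symm_apply_apply s c
    have h2 := hfix (s⁻¹ * t) (H.mul_mem (H.inv_mem hs) ht) h1
    have h3 := congrArg s h2
    rw [AlgEquiv.mul_apply] at h3
    rw [← h3]
    exact (AlgEquiv.apply_symm_apply s (t z)).symm
  have hT : ∀ g : MsA_cst p L ≃ₐ[FixedPoints.subfield H (MsA_cst p L)] MsA_cst p L,
      ∃ t : H, ∀ c : MsA_cst p L, ((g c : MsA_cst p L) : L) = (t : Gl p L) (c : L) := by
    intro g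
    obtain ⟨t, ht⟩ := FixedPoints.toAlgAut_surjective H (MsA_cst p L) g
    refine ⟨t, fun c => ?_⟩
    rw [← ht]
    rfl
  choose T hT using hT
  have hne : ∀ t : Gl p L, t z / z ≠ 0 := fun t =>
    div_ne_zero ((map_ne_zero t).2 hz) hz
  let f : (MsA_cst p L ≃ₐ[FixedPoints.subfield H (MsA_cst p L)] MsA_cst p L) →
      (MsA_cst p L)ˣ := fun g =>
    Units.mk0 ⟨(T g : Gl p L) z / z, hc _ (T g).2⟩ fun h =>
      hne (T g) (congrArg (fun c : MsA_cst p L => (c : L)) h)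
  have hfv : ∀ g, (((f g : (MsA_cst p L)ˣ) : MsA_cst p L) : L) = (T g : Gl p L) z / z :=
    fun g => rfl
  have hcoc : groupCohomology.IsMulCocycle₁ f := by
    intro g h
    apply Units.ext
    apply Subtype.ext
    rw [hfv]
    have e1 : (((g • f h * f g : (MsA_cst p L)ˣ) : MsA_cst p L) : L) =
        ((g ((f h : (MsA_cst p L)ˣ) : MsA_cst p L) : MsA_cst p L) : L) *
          ((T g : Gl p L) z / z) := rfl
    rw [e1, hT, hfv, hf _ (T h).2 _ (T g).2]
    have e2 : (T (g * h) : Gl p L) z = ((T g : Gl p L) * (T h : Gl p L)) z := by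
      refine hsame _ (T (g * h)).2 _ (H.mul_mem (T g).2 (T h).2) fun c hcc => ?_
      have e3 := hT (g * h) ⟨c, hcc⟩
      have e4 := hT g (h ⟨c, hcc⟩)
      rw [hT h ⟨c, hcc⟩] at e4
      rw [AlgEquiv.mul_apply, ← e3]
      exact e4
    have e5 : (T h : Gl p L) z = (T h : Gl p L) z / z * z := (div_mul_cancel₀ _ hz).symm
    have e6 : ((T g : Gl p L) * (T h : Gl p L)) z = (T h : Gl p L) z / z * (T g : Gl p L) z := by
      rw [AlgEquiv.mul_apply]
      conv_lhs => rw [e5, map_mul, hf _ (T h).2 _ (T g).2]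
    rw [e2, e6, mul_div_assoc]
  obtain ⟨β, hβ⟩ := groupCohomology.isMulCoboundary₁_of_isMulCocycle₁_of_aut_to_units f hcoc
  refine ⟨((β : MsA_cst p L) : L), (β : MsA_cst p L).2, fun h => β.ne_zero (Subtype.ext h),
    fun t ht => ?_⟩
  let g := MulSemiringAction.toAlgAut H (FixedPoints.subfield H (MsA_cst p L)) (MsA_cst p L)
    ⟨t, ht⟩
  have hg : ∀ c : MsA_cst p L, ((g c : MsA_cst p L) : L) = t (c : L) := fun c => rfl
  have e1 : (T g : Gl p L) z = t z := by
    refine hsame _ (T g).2 _ ht fun c hcc => ?_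
    rw [← hT g ⟨c, hcc⟩]
    exact hg ⟨c, hcc⟩
  have e2 := hβ g
  rw [div_eq_iff_eq_mul] at e2
  have e3 := congrArg (fun w : (MsA_cst p L)ˣ => (((w : MsA_cst p L)) : L)) e2
  have e4 : t ((β : MsA_cst p L) : L) = (T g : Gl p L) z / z * ((β : MsA_cst p L) : L) := e3
  rw [e4, e1]

theorem kum_cst (p : ℕ) [Fact p.Prime] (M L : Type) [Field M] [Algebra (Fx p) M] [Field L]
    [Algebra (Fx p) L] [FiniteDimensional (Fx p) L] [IsGalois (Fx p) L] (n r : ℕ)
    (hn : n.Coprime p) (hn0 : 0 < n) (ζ : M) (hζ : IsPrimitiveRoot ζ n) (u v : Fin r → M)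
    (Y : KumL p M L n r u v) (z : L) (U : M) (hz0 : z ≠ 0) (hz : z ^ n = Y.ι U)
    (hfix : ∀ τ ∈ Gc p L, Y.ρ τ = 1 → τ z = z) :
    ∃ c w : M, IsCst p c ∧ c ≠ 0 ∧ U = c * w ^ n := by
  have : NeZero n := ⟨hn0.ne'⟩
  have hinj : Function.Injective Y.ι := Y.ι.toRingHom.injective
  have hroot : ∀ t ∈ Y.ρ.ker, (t z / z) ^ n = 1 := by
    intro t ht
    rw [div_pow, ← map_pow, hz, Y.hρ, MonoidHom.mem_ker.1 ht, AlgEquiv.one_apply, ← hz]
    exact div_self (pow_ne_zero n hz0)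
  have hval : ∀ t ∈ Y.ρ.ker, ∃ m : M, t z / z = Y.ι m := by
    intro t ht
    obtain ⟨i, -, hi⟩ := (hζ.map_of_injective hinj).eq_pow_of_pow_eq_one (hroot t ht)
    exact ⟨ζ ^ i, by rw [map_pow]; exact hi.symm⟩
  obtain ⟨κ, hκc, hκ0, hκ⟩ := Kc_h90 p L Y.ρ.ker z hz0
    (fun t ht => Kc_root p L n hn _ (hroot t ht))
    (fun t ht s hs => by
      obtain ⟨m, hm⟩ := hval t ht
      rw [hm, Y.hρ, MonoidHom.mem_ker.1 hs, AlgEquiv.one_apply])
    (fun t ht hg => hfix t hg (MonoidHom.mem_ker.1 ht))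
  obtain ⟨w, hw⟩ := Y.fix (z / κ) (by
    intro τ hτ
    rw [map_div₀, hκ τ (MonoidHom.mem_ker.2 hτ)]
    have h1 : τ z ≠ 0 := (map_ne_zero τ).2 hz0
    field_simp)
  have hw0 : w ≠ 0 := by
    rintro rfl
    rw [map_zero] at hw
    exact div_ne_zero hz0 hκ0 hw
  have hzw : z = κ * Y.ι w := by
    rw [← hw, mul_div_cancel₀ _ hκ0]
  have hU : Y.ι (U / w ^ n) = κ ^ n := by
    rw [map_div₀, map_pow, ← hz, hzw, mul_pow, mul_div_cancel_right₀]
    exact pow_ne_zero n (fun h => hw0 (hinj (by rw [h, map_zero])))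
  have hU0 : U / w ^ n ≠ 0 := by
    intro h
    rw [h, map_zero] at hU
    exact pow_ne_zero n hκ0 hU.symm
  refine ⟨U / w ^ n, w, ?_, hU0, (div_mul_cancel₀ U (pow_ne_zero n hw0)).symm⟩
  refine (isCst_map_iff (Y.ι : M →+* L)).1 ?_
  change IsCst p (Y.ι (U / w ^ n))
  rw [hU]
  exact hκc.pow n

end Pool.Agent.AB3
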