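import Pool.Agent.Lib.MP_5de024_nt.Kum3
import Pool.Agent.Lib.MP_5de024_nt.S.KumX.Kb
import Pool.Agent.Lib.MP_5de024_nt.S.KumX.Kc

/-!
# Duality
-/

set_option autoImplicit false
set_option linter.unusedSectionVars false

namespace Pool.Agent.AB3

open Pool.Agent.AB

/-- roots of unity are constants -/
theorem kd_cst {p : ℕ} {K : Type} [Field K] {n : ℕ} (hn0 : 0 < n) (hn : n.Coprime p) {c : K}
    (hc : c ^ n = 1) : IsCst p c := by
  refine ⟨n.totient, Nat.totient_pos.mpr hn0, ?_⟩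
  have h1 : p ^ n.totient ≡ 1 [MOD n] := Nat.ModEq.pow_totient hn.symm
  rw [pow_eq_pow_mod (p ^ n.totient) hc, h1, ← pow_eq_pow_mod 1 hc, pow_one]

/-- powers of a root of unity -/
theorem kd_pow {K : Type} [Field K] {n : ℕ} {c : K} (hc : c ^ n = 1) {a b : ℕ}
    (h : a ≡ b [MOD n]) : c ^ a = c ^ b := by
  rw [pow_eq_pow_mod a hc, h, ← pow_eq_pow_mod b hc]

/-- the exponents of a character of the group of functions -/
theorem kd_char {G : Type} [Fintype G] [DecidableEq G] {r n : ℕ} [NeZero n] {K : Type} [Field K]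
    {ζ : K} (hζ : IsPrimitiveRoot ζ n)
    (χ : Multiplicative (G → Fin r → ZMod n) →* Kˣ) :
    ∃ e : G → Fin r → ℕ, ∀ f : G → Fin r → ZMod n,
      ((χ (Multiplicative.ofAdd f) : Kˣ) : K) = ∏ γ, ∏ j, ζ ^ (e γ j * (f γ j).val) := by
  have hexp : ∀ x : Multiplicative (G → Fin r → ZMod n), x ^ n = 1 := by
    intro x
    apply Multiplicative.toAdd.injective
    funext γ j
    change n • (Multiplicative.toAdd x) γ j = 0
    rw [nsmul_eq_mul, ZMod.natCast_self, zero_mul]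
  have he : ∀ (γ : G) (j : Fin r), ∃ e : ℕ,
      ((χ (Multiplicative.ofAdd (Pi.single γ (Pi.single j (1 : ZMod n)))) : Kˣ) : K) = ζ ^ e := by
    intro γ j
    have h1 : ((χ (Multiplicative.ofAdd (Pi.single γ (Pi.single j (1 : ZMod n)))) : Kˣ) : K) ^ n
        = 1 := by
      rw [← Units.val_pow_eq_pow_val, ← map_pow, hexp, map_one, Units.val_one]
    obtain ⟨i, -, hi⟩ := hζ.eq_pow_of_pow_eq_one h1
    exact ⟨i, hi.symm⟩
  choose e he using he
  refine ⟨e, fun f => ?_⟩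
  have hf : f = ∑ γ, ∑ j, (f γ j).val • Pi.single γ (Pi.single j (1 : ZMod n)) := by
    funext γ j
    rw [Finset.sum_apply, Finset.sum_apply, Finset.sum_eq_single γ, Finset.sum_apply,
      Finset.sum_apply, Finset.sum_eq_single j]
    · rw [Pi.smul_apply, Pi.smul_apply, Pi.single_eq_same, Pi.single_eq_same, nsmul_eq_mul,
        mul_one, ZMod.natCast_zmod_val]
    · intro b _ hb
      rw [Pi.smul_apply, Pi.smul_apply, Pi.single_eq_same, Pi.single_eq_of_ne hb.symm, smul_zero]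
    · intro h
      exact absurd (Finset.mem_univ _) h
    · intro b _ hb
      rw [Finset.sum_apply, Finset.sum_apply]
      refine Finset.sum_eq_zero fun i _ => ?_
      rw [Pi.smul_apply, Pi.smul_apply, Pi.single_eq_of_ne hb.symm, Pi.zero_apply, smul_zero]
    · intro h
      exact absurd (Finset.mem_univ _) h
  have h2 : Multiplicative.ofAdd f = ∏ γ, ∏ j,
      (Multiplicative.ofAdd (Pi.single γ (Pi.single j (1 : ZMod n)) :
        G → Fin r → ZMod n)) ^ (f γ j).val := by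
    conv_lhs => rw [hf]
    rw [ofAdd_sum]
    refine Finset.prod_congr rfl fun γ _ => ?_
    rw [ofAdd_sum]
    exact Finset.prod_congr rfl fun j _ => ofAdd_nsmul _ _
  rw [h2, map_prod, Units.coe_prod]
  refine Finset.prod_congr rfl fun γ _ => ?_
  rw [map_prod, Units.coe_prod]
  refine Finset.prod_congr rfl fun j _ => ?_
  rw [map_pow, Units.val_pow_eq_pow_val, he, pow_mul]

open Classical in
theorem kum_dual (p : ℕ) [Fact p.Prime] (M : Type) [Field M] [Algebra (Fx p) M]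
    [Algebra (Rx p) M] [IsScalarTower (Rx p) (Fx p) M] (hM : NiK p M) (L : Type) [Field L]
    [Algebra (Fx p) L] [FiniteDimensional (Fx p) L] [IsGalois (Fx p) L] (n r : ℕ) [NeZero n]
    (hn : n.Coprime p) (ζ : M) (hζ : IsPrimitiveRoot ζ n) (u v : Fin r → M)
    (hu0 : ∀ j, u j ≠ 0)
    (hind : ∀ (e : Gl p M → Fin r → ℕ) (c w : M), IsCst p c → c ≠ 0 →
      (∏ᶠ γ : Gl p M, ∏ᶠ j, (γ (u j)) ^ e γ j) = c * w ^ n →
      ∀ γ : Gl p M, ∀ h ∈ Gc p M, ∀ j, e (h * γ) j ≡ e γ j [MOD n])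
    (Y : KumL p M L n r u v) (ν : Gl p L → Gl p M → Fin r → ZMod n)
    (hν : ∀ (τ : Gl p L) (γ : Gl p M) (j : Fin r),
      τ (Y.w γ j) = Y.ι ((Y.ρ τ * γ) ζ) ^ (ν τ (Y.ρ τ * γ) j).val * Y.w (Y.ρ τ * γ) j)
    (hadd : ∀ (τ τ' : Gl p L) (γ : Gl p M) (j : Fin r),
      ν (τ * τ') γ j = ν τ γ j + ν τ' ((Y.ρ τ)⁻¹ * γ) j)
    (γ0 h0 : Gl p M) (hh0 : h0 ∈ Gc p M) (j0 : Fin r) :
    ∃ τ ∈ Gc p L, Y.ρ τ = 1 ∧ ∀ γ j, ν τ γ j =
      (if γ = h0 * γ0 ∧ j = j0 then 1 else 0) - (if γ = γ0 ∧ j = j0 then 1 else 0) := by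
  have hfd : FiniteDimensional (Fx p) M := hM.1
  have hfin : Fintype (Gl p M) := Fintype.ofFinite _
  have hn0 : 0 < n := NeZero.pos n
  -- the homomorphism
  let T0 : Subgroup (Gl p L) := Gc p L ⊓ Y.ρ.ker
  have hT0 : ∀ τ : T0, Y.ρ (τ : Gl p L) = 1 := fun τ => τ.2.2
  obtain ⟨Φ, hΦ⟩ : ∃ Φ : T0 →* Multiplicative (Gl p M → Fin r → ZMod n),
      ∀ τ : T0, Φ τ = Multiplicative.ofAdd (ν (τ : Gl p L)) := by
    refine ⟨MonoidHom.mk' (fun τ => Multiplicative.ofAdd (ν (τ : Gl p L))) ?_, fun τ => rfl⟩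
    intro τ τ'
    rw [← ofAdd_add]
    congr 1
    funext γ j
    change ν ((τ : Gl p L) * (τ' : Gl p L)) γ j = ν (τ : Gl p L) γ j + ν (τ' : Gl p L) γ j
    rw [hadd, hT0 τ, inv_one, one_mul]
  by_contra hcon
  have hn1 : Multiplicative.ofAdd (fun (γ : Gl p M) (j : Fin r) =>
      ((if γ = h0 * γ0 ∧ j = j0 then 1 else 0) - (if γ = γ0 ∧ j = j0 then 1 else 0) : ZMod n)) ∉
      Φ.range := by
    rintro ⟨τ, hτ⟩
    refine hcon ⟨τ, τ.2.1, hT0 τ, fun γ j => ?_⟩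
    rw [hΦ] at hτ
    exact congrFun (congrFun (Multiplicative.ofAdd.injective hτ) γ) j
  have hexp : ∀ x : Multiplicative (Gl p M → Fin r → ZMod n), x ^ n = 1 := by
    intro x
    apply Multiplicative.toAdd.injective
    funext γ j
    change n • (Multiplicative.toAdd x) γ j = 0
    rw [nsmul_eq_mul, ZMod.natCast_self, zero_mul]
  obtain ⟨χ, hχ1, hχ2⟩ := kum3_char hζ hexp Φ.range hn1
  apply hχ2
  obtain ⟨e, he⟩ := kd_char hζ χ
  -- the conjugates of `ζ`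
  have hprim : ∀ δ : Gl p M, IsPrimitiveRoot (δ ζ) n := fun δ =>
    hζ.map_of_injective δ.injective
  have hb : ∀ δ : Gl p M, ∃ b : ℕ, (δ ζ) ^ b = ζ := by
    intro δ
    obtain ⟨i, -, hi⟩ := (hprim δ).eq_pow_of_pow_eq_one hζ.pow_eq_one
    exact ⟨i, hi⟩
  choose b hb using hb
  have hw0 : ∀ γ j, Y.w γ j ≠ 0 := by
    intro γ j h
    have h1 := Y.root γ j
    rw [h, zero_pow hn0.ne'] at h1
    exact hu0 j ((map_eq_zero γ).mp ((map_eq_zero Y.ι).mp h1.symm))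
  -- the element
  have hz0 : (∏ γ, ∏ j, Y.w γ j ^ (b γ * e γ j)) ≠ 0 :=
    Finset.prod_ne_zero_iff.mpr fun γ _ => Finset.prod_ne_zero_iff.mpr fun j _ =>
      pow_ne_zero _ (hw0 γ j)
  have hzn : (∏ γ, ∏ j, Y.w γ j ^ (b γ * e γ j)) ^ n =
      Y.ι (∏ γ : Gl p M, ∏ j, (γ (u j)) ^ (b γ * e γ j)) := by
    rw [map_prod, ← Finset.prod_pow]
    refine Finset.prod_congr rfl fun γ _ => ?_
    rw [map_prod, ← Finset.prod_pow]
    refine Finset.prod_congr rfl fun j _ => ?_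
    rw [map_pow, ← Y.root, ← pow_mul, ← pow_mul, mul_comm]
  have hfix : ∀ τ ∈ Gc p L, Y.ρ τ = 1 →
      τ (∏ γ, ∏ j, Y.w γ j ^ (b γ * e γ j)) = ∏ γ, ∏ j, Y.w γ j ^ (b γ * e γ j) := by
    intro τ hτ hρ
    have h1 : ((χ (Multiplicative.ofAdd (ν τ)) : Mˣ) : M) = 1 := by
      have h2 : Multiplicative.ofAdd (ν τ) = Φ ⟨τ, hτ, hρ⟩ := (hΦ ⟨τ, hτ, hρ⟩).symm
      rw [h2, hχ1 _ ⟨_, rfl⟩, Units.val_one]
    rw [he] at h1
    have h3 : ∀ γ j, τ (Y.w γ j ^ (b γ * e γ j)) =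
        Y.ι (ζ ^ (e γ j * (ν τ γ j).val)) * Y.w γ j ^ (b γ * e γ j) := by
      intro γ j
      have h4 := hν τ γ j
      rw [hρ, one_mul] at h4
      rw [map_pow, h4, mul_pow, ← pow_mul, ← map_pow]
      congr 2
      have h5 : (ν τ γ j).val * (b γ * e γ j) = b γ * (e γ j * (ν τ γ j).val) := by ring
      rw [h5, pow_mul, hb]
    rw [map_prod]
    have h6 : ∀ γ, τ (∏ j, Y.w γ j ^ (b γ * e γ j)) =
        Y.ι (∏ j, ζ ^ (e γ j * (ν τ γ j).val)) * ∏ j, Y.w γ j ^ (b γ * e γ j) := by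
      intro γ
      rw [map_prod, map_prod, ← Finset.prod_mul_distrib]
      exact Finset.prod_congr rfl fun j _ => h3 γ j
    rw [Finset.prod_congr rfl fun γ _ => h6 γ, Finset.prod_mul_distrib, ← map_prod, h1, map_one,
      one_mul]
  obtain ⟨c, w', hc, hc0, hU⟩ := kum_cst p M L n r hn hn0 ζ hζ u v Y _ _ hz0 hzn hfix
  have hfp : (∏ᶠ γ : Gl p M, ∏ᶠ j, (γ (u j)) ^ (b γ * e γ j)) = c * w' ^ n := by
    rw [← hU, finprod_eq_prod_of_fintype]
    exact Finset.prod_congr rfl fun γ _ => finprod_eq_prod_of_fintype _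
  have hcong := hind (fun γ j => b γ * e γ j) c w' hc hc0 hfp γ0 h0 hh0 j0
  -- the constant
  have hxi : (h0 * γ0) ζ = γ0 ζ := by
    have h1 : IsCst p (γ0 ζ) := kd_cst hn0 hn (hprim γ0).pow_eq_one
    exact hh0 _ h1
  have heq : ζ ^ e (h0 * γ0) j0 = ζ ^ e γ0 j0 := by
    have h1 : ζ ^ e (h0 * γ0) j0 = (γ0 ζ) ^ (b (h0 * γ0) * e (h0 * γ0) j0) := by
      have h2 := hb (h0 * γ0)
      rw [hxi] at h2
      rw [pow_mul, h2]
    have h3 : ζ ^ e γ0 j0 = (γ0 ζ) ^ (b γ0 * e γ0 j0) := by rw [pow_mul, hb]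
    rw [h1, h3]
    exact kd_pow (hprim γ0).pow_eq_one hcong
  -- the character at the element
  have h1 : ∀ g : Gl p M, ((χ (Multiplicative.ofAdd (fun (γ : Gl p M) (j : Fin r) =>
      (if γ = g ∧ j = j0 then 1 else 0 : ZMod n))) : Mˣ) : M) = ζ ^ e g j0 := by
    intro g
    rw [he, Finset.prod_eq_single g, Finset.prod_eq_single j0]
    · rw [if_pos ⟨rfl, rfl⟩]
      rcases Nat.lt_or_ge 1 n with h2 | h2
      · have h3 : Fact (1 < n) := ⟨h2⟩
        rw [ZMod.val_one, mul_one]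
      · have h3 : n = 1 := le_antisymm h2 hn0
        have h4 : ζ = 1 := by
          have h5 := hζ.pow_eq_one
          rwa [h3, pow_one] at h5
        rw [h4, one_pow, one_pow]
    · intro j _ hj
      rw [if_neg fun h => hj h.2, ZMod.val_zero, mul_zero, pow_zero]
    · intro h
      exact absurd (Finset.mem_univ _) h
    · intro γ _ hγ
      refine Finset.prod_eq_one fun j _ => ?_
      rw [if_neg fun h => hγ h.1, ZMod.val_zero, mul_zero, pow_zero]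
    · intro h
      exact absurd (Finset.mem_univ _) h
  have h2 : (fun (γ : Gl p M) (j : Fin r) => ((if γ = h0 * γ0 ∧ j = j0 then 1 else 0) -
      (if γ = γ0 ∧ j = j0 then 1 else 0) : ZMod n)) =
      (fun (γ : Gl p M) (j : Fin r) => (if γ = h0 * γ0 ∧ j = j0 then 1 else 0 : ZMod n)) -
      (fun (γ : Gl p M) (j : Fin r) => (if γ = γ0 ∧ j = j0 then 1 else 0 : ZMod n)) := rfl
  rw [h2, ofAdd_sub, map_div, div_eq_one]
  apply Units.ext
  rw [h1, h1, heq]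

end Pool.Agent.AB3
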