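import Pool.Agent.Lib.MP_5de024_nt.S.KumX.Ka
import Pool.Agent.Lib.MP_5de024_nt.S.KumX.Kd
import Pool.Agent.Lib.MP_5de024_nt.S.E.MsA

/-!
# The homomorphism to the semidirect product
-/

set_option autoImplicit false
set_option linter.unusedSectionVars false

namespace Pool.Agent.AB3

open Pool.Agent.AB

/-- exponents of a difference -/
theorem Ke_sub {V : Type} [CommGroup V] {n : ℕ} [NeZero n] (hV : ∀ a : V, a ^ n = 1) (a : V)
    (s t : ZMod n) : a ^ (s - t).val = a ^ s.val * (a ^ t.val)⁻¹ := by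
  have h := kum3_add (hV a) (s - t) t
  rw [sub_add_cancel] at h
  rw [h, mul_inv_cancel_right]

open Classical in
/-- the product of the powers with exponents `0` and `1` -/
theorem Ke_single {G V : Type} [Fintype G] [CommGroup V] {n r : ℕ} [NeZero n]
    (hV : ∀ a : V, a ^ n = 1) (f : G → Fin r → V) (g : G) (j0 : Fin r) :
    (∏ γ, ∏ j, f γ j ^ (if γ = g ∧ j = j0 then (1 : ZMod n) else 0).val) = f g j0 := by
  rw [Finset.prod_eq_single g, Finset.prod_eq_single j0]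
  · rw [if_pos ⟨rfl, rfl⟩, ZMod.val_one_eq_one_mod, ← pow_eq_pow_mod 1 (hV _), pow_one]
  · intro j _ hj
    rw [if_neg fun h => hj h.2, ZMod.val_zero, pow_zero]
  · intro h
    exact absurd (Finset.mem_univ _) h
  · intro γ _ hγ
    refine Finset.prod_eq_one fun j _ => ?_
    rw [if_neg fun h => hγ h.1, ZMod.val_zero, pow_zero]
  · intro h
    exact absurd (Finset.mem_univ _) h

theorem kum_rf (p : ℕ) [Fact p.Prime] (M : Type) [Field M] [Algebra (Fx p) M]
    [Algebra (Rx p) M] [IsScalarTower (Rx p) (Fx p) M] (hM : NiK p M) (L : Type) [Field L]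
    [Algebra (Fx p) L] [Algebra (Rx p) L] [IsScalarTower (Rx p) (Fx p) L] (hL : NiK p L)
    (n r : ℕ) [NeZero n] (hn : n.Coprime p) (ζ : M) (hζ : IsPrimitiveRoot ζ n)
    (u v : Fin r → M) (hu0 : ∀ j, u j ≠ 0)
    (hind : ∀ (e : Gl p M → Fin r → ℕ) (c w : M), IsCst p c → c ≠ 0 →
      (∏ᶠ γ : Gl p M, ∏ᶠ j, (γ (u j)) ^ e γ j) = c * w ^ n →
      ∀ γ : Gl p M, ∀ h ∈ Gc p M, ∀ j, e (h * γ) j ≡ e γ j [MOD n])
    (Y : KumL p M L n r u v) (V : Type) [CommGroup V] [Finite V] (hV : ∀ a : V, a ^ n = 1)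
    (φ : Gl p M →* MulAut V) (x : Fin r → V)
    (hx : Subgroup.closure {y : V | ∃ (j : Fin r) (γ h : Gl p M), h ∈ Gc p M ∧
      y = φ (h * γ) (x j) * (φ γ (x j))⁻¹} = ⊤) :
    RF p (V ⋊[φ] Gl p M) ((Gc p M).comap SemidirectProduct.rightHom) := by
  classical
  have hfd : FiniteDimensional (Fx p) M := hM.1
  have hfdL : FiniteDimensional (Fx p) L := hL.1
  have hgal : IsGalois (Fx p) L := hL.2.1
  have hfin : Fintype (Gl p M) := Fintype.ofFinite _
  obtain ⟨ν, hν, hadd, -⟩ := kum_nu p M hM L n r hn ζ hζ u v hu0 Y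
  -- the component in `V`
  obtain ⟨A, hA⟩ : ∃ A : Gl p L → V, ∀ τ, A τ =
      ∏ γ : Gl p M, ∏ j, (φ γ (x j)) ^ (ν τ γ j).val := ⟨_, fun _ => rfl⟩
  have hAm : ∀ τ τ' : Gl p L, A (τ * τ') = A τ * φ (Y.ρ τ) (A τ') := by
    intro τ τ'
    have h1 : φ (Y.ρ τ) (A τ') =
        ∏ γ : Gl p M, ∏ j, (φ γ (x j)) ^ (ν τ' ((Y.ρ τ)⁻¹ * γ) j).val := by
      rw [hA, map_prod]
      refine Fintype.prod_equiv (Equiv.mulLeft (Y.ρ τ)) _ _ fun γ => ?_
      rw [map_prod, Equiv.coe_mulLeft, inv_mul_cancel_left]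
      refine Finset.prod_congr rfl fun j _ => ?_
      rw [map_pow, map_mul, MulAut.mul_apply]
    rw [h1, hA, hA, ← Finset.prod_mul_distrib]
    refine Finset.prod_congr rfl fun γ _ => ?_
    rw [← Finset.prod_mul_distrib]
    refine Finset.prod_congr rfl fun j _ => ?_
    rw [hadd, kum3_add (hV _)]
  obtain ⟨Ψ, hΨl, hΨr⟩ : ∃ Ψ : Gl p L →* V ⋊[φ] Gl p M,
      (∀ τ, (Ψ τ).left = A τ) ∧ ∀ τ, (Ψ τ).right = Y.ρ τ := by
    refine ⟨MonoidHom.mk' (fun τ => (⟨A τ, Y.ρ τ⟩ : V ⋊[φ] Gl p M)) ?_, fun _ => rfl,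
      fun _ => rfl⟩
    intro τ τ'
    rw [SemidirectProduct.mul_def]
    apply SemidirectProduct.ext
    · exact hAm τ τ'
    · exact map_mul Y.ρ τ τ'
  -- the elements of `V` are in the image of the geometric part
  have hV1 : ∀ y : V, ∃ τ ∈ Gc p L, Y.ρ τ = 1 ∧ A τ = y := by
    let W : Subgroup V :=
      { carrier := {y | ∃ τ ∈ Gc p L, Y.ρ τ = 1 ∧ A τ = y}
        mul_mem' := by
          rintro a b ⟨s, hs, hs1, rfl⟩ ⟨t, ht, ht1, rfl⟩
          refine ⟨s * t, (Gc p L).mul_mem hs ht, by rw [map_mul, hs1, ht1, one_mul], ?_⟩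
          rw [hAm, hs1, map_one, MulAut.one_apply]
        one_mem' := by
          refine ⟨1, (Gc p L).one_mem, map_one _, ?_⟩
          have h1 := hAm 1 1
          rw [map_one, map_one, MulAut.one_apply, one_mul] at h1
          exact mul_eq_left.1 h1.symm
        inv_mem' := by
          rintro a ⟨s, hs, hs1, rfl⟩
          have h0 := hAm 1 1
          rw [map_one, map_one, MulAut.one_apply, one_mul] at h0
          have h1 := hAm s⁻¹ s
          rw [inv_mul_cancel, map_inv, hs1, inv_one, map_one, MulAut.one_apply,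
            mul_eq_left.1 h0.symm] at h1
          exact ⟨s⁻¹, (Gc p L).inv_mem hs, by rw [map_inv, hs1, inv_one],
            eq_inv_of_mul_eq_one_left h1.symm⟩ }
    have hW : W = ⊤ := by
      rw [eq_top_iff, ← hx, Subgroup.closure_le]
      rintro y ⟨j0, γ0, h0, hh0, rfl⟩
      obtain ⟨τ, hτ, hτ1, hτ2⟩ := kum_dual p M hM L n r hn ζ hζ u v hu0 hind Y ν hν hadd
        γ0 h0 hh0 j0
      refine ⟨τ, hτ, hτ1, ?_⟩
      rw [hA]
      have h1 : ∀ γ : Gl p M, ∀ j : Fin r, (φ γ (x j)) ^ (ν τ γ j).val =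
          (φ γ (x j)) ^ (if γ = h0 * γ0 ∧ j = j0 then (1 : ZMod n) else 0).val *
          ((φ γ (x j)) ^ (if γ = γ0 ∧ j = j0 then (1 : ZMod n) else 0).val)⁻¹ := by
        intro γ j
        rw [hτ2, Ke_sub hV]
      rw [Finset.prod_congr rfl fun γ _ => Finset.prod_congr rfl fun j _ => h1 γ j,
        Finset.prod_congr rfl fun γ _ => Finset.prod_mul_distrib, Finset.prod_mul_distrib,
        Ke_single hV (fun γ j => φ γ (x j)) (h0 * γ0) j0,
        Finset.prod_congr rfl fun γ _ => Finset.prod_inv_distrib _, Finset.prod_inv_distrib,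
        Ke_single hV (fun γ j => φ γ (x j)) γ0 j0]
    intro y
    have h1 : y ∈ W := by
      rw [hW]
      exact Subgroup.mem_top y
    exact h1
  have key : ∀ (g : V ⋊[φ] Gl p M) (τ : Gl p L), Y.ρ τ = g.right →
      ∃ s ∈ Gc p L, Ψ (s * τ) = g := by
    intro g τ hτ
    obtain ⟨s, hs, hs1, hs2⟩ := hV1 (g.left * (A τ)⁻¹)
    refine ⟨s, hs, ?_⟩
    apply SemidirectProduct.ext
    · rw [hΨl, hAm, hs1, hs2, map_one, MulAut.one_apply, inv_mul_cancel_right]
    · rw [hΨr, map_mul, hs1, hτ, one_mul]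
  refine ⟨L, inferInstance, inferInstance, inferInstance, inferInstance, Ψ, hL, ?_, ?_⟩
  · intro g
    obtain ⟨τ, hτ⟩ := Y.surj g.right
    obtain ⟨s, -, hs⟩ := key g τ hτ
    exact ⟨_, hs⟩
  · have hgc := MsA_gcsurj p M L Y.ι Y.ρ Y.hρ Y.surj Y.fix
    ext g
    constructor
    · rintro ⟨τ, hτ, rfl⟩
      change (Ψ τ).right ∈ Gc p M
      rw [hΨr, ← hgc]
      exact ⟨τ, hτ, rfl⟩
    · intro hg
      have hg1 : g.right ∈ (Gc p L).map Y.ρ := by
        rw [hgc]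
        exact hg
      obtain ⟨τ, hτ, hτ1⟩ := hg1
      obtain ⟨s, hs, hs1⟩ := key g τ hτ1
      exact ⟨s * τ, (Gc p L).mul_mem hs hτ, hs1⟩

end Pool.Agent.AB3
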